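import Pool.Agent.H270R2.Sq.Line

set_option autoImplicit false

open MeasureTheory intervalIntegral

namespace Pool.Agent.H270R2.Sq

/-- Normalised cost. -/
noncomputable def Gam (v : ℝ) : ℝ := cost (2 / 25) v

theorem Gam_cont : Continuous Gam := by
  unfold Gam cost g
  fun_prop

theorem cost_scale {w : ℝ} (hw : 0 ≤ w) (v : ℝ) : cost (2 / 25 * w) (w * v) = w * Gam v := by
  unfold Gam cost g
  have : min (min (245 / 100 * (w * v) - 2 * (2 / 25 * w)) (45 / 100 * (w * v) - 2 / 25 * w / 2))
      (2 / 25 * w) = w * min (min (245 / 100 * v - 2 * (2 / 25)) (45 / 100 * v - 2 / 25 / 2)) (2 / 25) := by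
    rw [mul_min_of_nonneg _ _ hw, mul_min_of_nonneg _ _ hw]
    congr 1
    · congr 1 <;> ring
    · ring
  rw [this]; ring

/-- The value of the average. -/
theorem integral_Gam : ∫ v in (0 : ℝ)..(1 / 2), Gam v = 1 / 8 - c0 * (51 / 2500) := by
  have hc := Gam_cont
  have i1 : ∫ v in (0 : ℝ)..(3 / 50), Gam v
      = ∫ v in (0 : ℝ)..(3 / 50), ((1 - c0 * (245 / 100)) * v + c0 * (4 / 25)) := by
    apply intervalIntegral.integral_congr
    intro v hv
    rw [Set.uIcc_of_le (by norm_num)] at hv
    obtain ⟨h1, h2⟩ := hv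
    simp only [Gam, cost, g]
    rw [min_eq_left (a := 245 / 100 * v - 2 * (2 / 25)) (by linarith), min_eq_left (by linarith)]
    ring
  have i2 : ∫ v in (3 / 50 : ℝ)..(4 / 15), Gam v
      = ∫ v in (3 / 50 : ℝ)..(4 / 15), ((1 - c0 * (45 / 100)) * v + c0 * (1 / 25)) := by
    apply intervalIntegral.integral_congr
    intro v hv
    rw [Set.uIcc_of_le (by norm_num)] at hv
    obtain ⟨h1, h2⟩ := hv
    simp only [Gam, cost, g]
    rw [min_eq_right (b := 45 / 100 * v - 2 / 25 / 2) (by linarith), min_eq_left (by linarith)]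
    ring
  have i3 : ∫ v in (4 / 15 : ℝ)..(1 / 2), Gam v
      = ∫ v in (4 / 15 : ℝ)..(1 / 2), (1 * v + (- (c0 * (2 / 25)))) := by
    apply intervalIntegral.integral_congr
    intro v hv
    rw [Set.uIcc_of_le (by norm_num)] at hv
    obtain ⟨h1, h2⟩ := hv
    simp only [Gam, cost, g]
    rw [min_eq_right (b := 2 / 25) (le_min (by linarith) (by linarith))]
    ring
  have lin : ∀ a b p q : ℝ, ∫ v in a..b, (p * v + q) = p * ((b ^ 2 - a ^ 2) / 2) + q * (b - a) := by
    intro a b p q
    have c1 : Continuous (fun v : ℝ => p * v) := by fun_prop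
    have c2 : Continuous (fun _ : ℝ => q) := by fun_prop
    rw [intervalIntegral.integral_add (c1.intervalIntegrable _ _)
      (c2.intervalIntegrable _ _), intervalIntegral.integral_const_mul, integral_id,
      intervalIntegral.integral_const, smul_eq_mul]
    ring
  rw [← intervalIntegral.integral_add_adjacent_intervals (b := 4 / 15)
      (hc.intervalIntegrable _ _) (hc.intervalIntegrable _ _),
    ← intervalIntegral.integral_add_adjacent_intervals (a := 0) (b := 3 / 50) (c := 4 / 15)
      (hc.intervalIntegrable _ _) (hc.intervalIntegrable _ _), i1, i2, i3, lin, lin, lin]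
  ring

/-- The periodic cost. -/
noncomputable def per (u : ℝ) : ℝ := Gam |u - round u|

theorem per_eq (u : ℝ) : per u = Gam (min (Int.fract u) (1 - Int.fract u)) := by
  unfold per; rw [abs_sub_round_eq_min]

theorem per_periodic : Function.Periodic per 1 := by
  intro u
  rw [per_eq, per_eq, Int.fract_add_one]

theorem per_left {u : ℝ} (h0 : 0 ≤ u) (h1 : u ≤ 1 / 2) : per u = Gam u := by
  rw [per_eq, Int.fract_eq_self.2 ⟨h0, by linarith⟩, min_eq_left (by linarith)]

theorem per_right {u : ℝ} (h0 : 1 / 2 ≤ u) (h1 : u ≤ 1) : per u = Gam (1 - u) := by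
  rcases h1.lt_or_eq with h | rfl
  · rw [per_eq, Int.fract_eq_self.2 ⟨by linarith, h⟩, min_eq_right (by linarith)]
  · rw [per_eq, Int.fract_one]
    norm_num

theorem per_int1 : IntervalIntegrable per volume 0 (1 / 2) := by
  refine (Gam_cont.intervalIntegrable 0 (1 / 2)).congr ?_
  intro u hu
  rw [Set.uIoc_of_le (by norm_num)] at hu
  exact (per_left hu.1.le hu.2).symm

theorem per_int2 : IntervalIntegrable per volume (1 / 2) 1 := by
  have hc : Continuous (fun u : ℝ => Gam (1 - u)) := Gam_cont.comp (by fun_prop)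
  refine (hc.intervalIntegrable (1 / 2) 1).congr ?_
  intro u hu
  rw [Set.uIoc_of_le (by norm_num)] at hu
  exact (per_right hu.1.le hu.2).symm

theorem per_int (a b : ℝ) : IntervalIntegrable per volume a b :=
  per_periodic.intervalIntegrable₀ one_ne_zero (per_int1.trans per_int2) a b

theorem integral_per : ∫ u in (0 : ℝ)..1, per u = 1 / 4 - c0 * (51 / 1250) := by
  rw [← intervalIntegral.integral_add_adjacent_intervals per_int1 per_int2]
  have h1 : ∫ u in (0 : ℝ)..(1 / 2), per u = ∫ u in (0 : ℝ)..(1 / 2), Gam u := by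
    apply intervalIntegral.integral_congr
    intro u hu
    rw [Set.uIcc_of_le (by norm_num)] at hu
    exact per_left hu.1 hu.2
  have h2 : ∫ u in (1 / 2 : ℝ)..1, per u = ∫ u in (0 : ℝ)..(1 / 2), Gam u := by
    have : ∫ u in (1 / 2 : ℝ)..1, per u = ∫ u in (1 / 2 : ℝ)..1, Gam (1 - u) := by
      apply intervalIntegral.integral_congr
      intro u hu
      rw [Set.uIcc_of_le (by norm_num)] at hu
      exact per_right hu.1 hu.2
    rw [this, intervalIntegral.integral_comp_sub_left (fun v => Gam v) 1]
    norm_num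
  rw [h1, h2, integral_Gam]
  ring

theorem integral_per_sub (a : ℝ) : ∫ σ in (0 : ℝ)..1, per (a - σ) = 1 / 4 - c0 * (51 / 1250) := by
  rw [intervalIntegral.integral_comp_sub_left (fun v => per v) a]
  have := per_periodic.intervalIntegral_add_eq (a - 1) 0
  simp only [sub_add_cancel, zero_add] at this
  rw [sub_zero, this, integral_per]

/-- A good offset. -/
theorem exists_offset {ι : Type*} (X : Finset ι) (a : ι → ℝ) :
    ∃ σ : ℝ, 0 ≤ σ ∧ σ ≤ 1 ∧
      ∑ p ∈ X, per (a p - σ) ≤ X.card * (1 / 4 - c0 * (51 / 1250)) + 1 := by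
  by_contra hcon
  push Not at hcon
  have hint : ∀ p ∈ X, IntervalIntegrable (fun σ => per (a p - σ)) volume 0 1 := by
    intro p _
    have := (per_int (a p - 0) (a p - 1)).comp_sub_left (a p)
    simpa using this
  have h1 : ∫ σ in (0 : ℝ)..1, ∑ p ∈ X, per (a p - σ)
      = X.card * (1 / 4 - c0 * (51 / 1250)) := by
    rw [intervalIntegral.integral_finsetSum hint]
    simp only [integral_per_sub, Finset.sum_const, nsmul_eq_mul]
  have h2 : ∫ σ in (0 : ℝ)..1, (X.card * (1 / 4 - c0 * (51 / 1250)) + 1 : ℝ)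
      ≤ ∫ σ in (0 : ℝ)..1, ∑ p ∈ X, per (a p - σ) := by
    apply intervalIntegral.integral_mono_on (by norm_num) (continuous_const.intervalIntegrable _ _)
    · have := IntervalIntegrable.sum X hint
      refine this.congr ?_
      intro σ _
      simp
    · intro σ hσ
      exact (hcon σ hσ.1 hσ.2).le
  rw [h1, intervalIntegral.integral_const] at h2
  simp only [sub_zero, one_smul] at h2
  linarith

end Pool.Agent.H270R2.Sq
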