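import Pool.Agent.H270R2.Sq.Avg

set_option autoImplicit false

namespace Pool.Agent.H270R2.Sq

theorem main_pos (X : Finset P2) (hX : ∀ x ∈ X, ∀ i : Fin 2, 0 ≤ x i ∧ x i ≤ 1)
    (hn : 1 ≤ X.card) :
    Net (X : Set P2) (9946 / 10000 * √(X.card : ℝ) + 20) := by
  classical
  set r : ℝ := √(X.card : ℝ) with hr
  have hn' : (1 : ℝ) ≤ (X.card : ℝ) := by exact_mod_cast hn
  have hr1 : 1 ≤ r := by rw [hr]; exact Real.one_le_sqrt.2 hn'
  have hr0 : 0 < r := by linarith
  have hrr : r * r = (X.card : ℝ) := Real.mul_self_sqrt (by linarith)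
  set w : ℝ := 2 / r with hw
  have hw0 : 0 < w := by positivity
  have hw2 : w ≤ 2 := by rw [hw, div_le_iff₀ hr0]; linarith
  have hwr : w * r = 2 := by rw [hw]; field_simp
  obtain ⟨σ, hσ0, hσ1, hσ⟩ := exists_offset X (fun p : P2 => p 1 / w)
  -- rounding
  set R : P2 → ℤ := fun p => round (p 1 / w - σ) with hR
  have hround : ∀ p : P2, |p 1 / w - σ - R p| ≤ 1 / 2 := fun p => abs_sub_round _
  have hlow : ∀ p ∈ X, -1 ≤ R p := by
    intro p hp
    have h1 := abs_le.1 (hround p)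
    have h2 : 0 ≤ p 1 / w := div_nonneg (hX p hp 1).1 hw0.le
    have h3 : (-2 : ℝ) < (R p : ℝ) := by linarith
    have h4 : (-2 : ℤ) < R p := by exact_mod_cast h3
    omega
  set k : ℕ := ⌈1 / w⌉₊ + 2 with hk
  have hup : ∀ p ∈ X, R p + 1 ≤ (k : ℤ) := by
    intro p hp
    have h1 := abs_le.1 (hround p)
    have h2 : p 1 / w ≤ 1 / w := div_le_div_of_nonneg_right (hX p hp 1).2 hw0.le
    have h3 : (1 / w : ℝ) ≤ (⌈1 / w⌉₊ : ℝ) := Nat.le_ceil _
    have h4 : (R p : ℝ) + 1 < (k : ℝ) := by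
      rw [hk]; push_cast; linarith
    have h5 : R p + 1 < (k : ℤ) := by exact_mod_cast h4
    exact h5.le
  set J : P2 → ℕ := fun p => (R p + 1).toNat with hJ
  have hJR : ∀ p ∈ X, ((J p : ℕ) : ℝ) = R p + 1 := by
    intro p hp
    have h1 : ((J p : ℕ) : ℤ) = R p + 1 := Int.toNat_of_nonneg (by have := hlow p hp; omega)
    have : (((J p : ℕ) : ℤ) : ℝ) = ((R p + 1 : ℤ) : ℝ) := by rw [h1]
    push_cast at this
    exact this
  have hJk : ∀ p ∈ X, J p ∈ Finset.range (k + 1) := by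
    intro p hp
    rw [Finset.mem_range]
    have h1 : ((J p : ℕ) : ℤ) = R p + 1 := Int.toNat_of_nonneg (by have := hlow p hp; omega)
    have := hup p hp
    omega
  set y : ℕ → ℝ := fun j => w * (σ + j - 1) with hy
  have hyw : ∀ j, |y j - y (j + 1)| = w := by
    intro j
    have : y j - y (j + 1) = -w := by simp only [hy]; push_cast; ring
    rw [this, abs_neg, abs_of_pos hw0]
  set S : ℕ → Finset P2 := fun j => X.filter (fun p => J p = j) with hS
  have hS1 : ∀ j, ∀ p ∈ S j, 0 ≤ p 0 ∧ p 0 ≤ 1 := by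
    intro j p hp
    exact hX p (Finset.mem_filter.1 hp).1 0
  have H := strips (2 / 25 * w) (by positivity) y w hyw S hS1 k
  refine H.mono ?_ ?_
  · intro z hz
    right
    refine ⟨J z, ?_, Finset.mem_filter.2 ⟨hz, rfl⟩⟩
    have := Finset.mem_range.1 (hJk z hz)
    omega
  · have hsum : ∑ j ∈ Finset.range (k + 1), ∑ p ∈ S j, cost (2 / 25 * w) |p 1 - y j|
        = w * ∑ p ∈ X, per (p 1 / w - σ) := by
      rw [Finset.mul_sum, ← Finset.sum_fiberwise_of_maps_to hJk]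
      refine Finset.sum_congr rfl (fun j _ => Finset.sum_congr rfl (fun p hp => ?_))
      obtain ⟨hpX, hpj⟩ := Finset.mem_filter.1 hp
      have e1 : p 1 - y j = w * (p 1 / w - σ - R p) := by
        have := hJR p hpX
        rw [hpj] at this
        simp only [hy]
        rw [this]
        field_simp
        ring
      rw [e1, abs_mul, abs_of_pos hw0, cost_scale hw0.le]
      rfl
    rw [hsum]
    have hk2 : (k : ℝ) ≤ r / 2 + 3 := by
      have h1 : (⌈1 / w⌉₊ : ℝ) < 1 / w + 1 := Nat.ceil_lt_add_one (by positivity)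
      have h2 : 1 / w = r / 2 := by rw [hw]; field_simp
      rw [hk]; push_cast; linarith
    have hkw : (k : ℝ) * w ≤ 7 := by
      have : (k : ℝ) * w ≤ (r / 2 + 3) * w := mul_le_mul_of_nonneg_right hk2 hw0.le
      nlinarith
    have hcost : w * ∑ p ∈ X, per (p 1 / w - σ)
        ≤ w * ((X.card : ℝ) * (1 / 4 - c0 * (51 / 1250)) + 1) :=
      mul_le_mul_of_nonneg_left hσ hw0.le
    have e2 : w * ((X.card : ℝ) * (1 / 4 - c0 * (51 / 1250)) + 1)
        = 2 * r * (1 / 4 - c0 * (51 / 1250)) + w := by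
      rw [← hrr]
      have : w * (r * r * (1 / 4 - c0 * (51 / 1250)) + 1)
        = (w * r) * r * (1 / 4 - c0 * (51 / 1250)) + w := by ring
      rw [this, hwr]
    have e3 : ((k : ℝ) + 1) * (1 + 2 * (c0 * (2 / 25 * w)))
        = k + 1 + 4 / 25 * c0 * (k * w) + 4 / 25 * c0 * w := by ring
    rw [e3]
    rw [e2] at hcost
    unfold c0 at *
    nlinarith

theorem main : ∃ c : ℝ, c < 995 / 1000 ∧ ∃ C : ℝ, ∀ X : Finset P2,
    (∀ x ∈ X, ∀ i : Fin 2, 0 ≤ x i ∧ x i ≤ 1) →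
    ∃ E : Finset (P2 × P2),
      (∀ x ∈ X, ∀ y ∈ X, Relation.ReflTransGen (fun a b => (a, b) ∈ E ∨ (b, a) ∈ E) x y) ∧
      ∑ e ∈ E, dist e.1 e.2 ≤ c * Real.sqrt (X.card : ℝ) + C := by
  refine ⟨9946 / 10000, by norm_num, 20, ?_⟩
  intro X hX
  rcases Nat.eq_zero_or_pos X.card with h | h
  · refine ⟨∅, ?_, ?_⟩
    · intro x hx
      rw [Finset.card_eq_zero] at h
      rw [h] at hx; simp at hx
    · rw [h]; simp
  · obtain ⟨E, h1, h2⟩ := main_pos X hX h
    exact ⟨E, fun x hx y hy => h1 x hx y hy, h2⟩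

end Pool.Agent.H270R2.Sq
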