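import Pool.Agent.H270R2.Sq.Triple

set_option autoImplicit false

namespace Pool.Agent.H270R2.Sq

/-- The cost of a point at distance `h` from its line. -/
noncomputable def cost (B h : ℝ) : ℝ := h - c0 * g B h

theorem c0_pos : 0 < c0 := by unfold c0; norm_num

theorem le_cost (B h : ℝ) : h ≤ cost B h + c0 * B := by
  have := mul_le_mul_of_nonneg_left (g_le3 B h) c0_pos.le
  unfold cost; linarith

/-- A horizontal line from `x0` to `1` with a sorted list of points attached. -/
theorem lineNet (B y : ℝ) (hB : 0 ≤ B) : ∀ (l : List (ℝ × ℝ)) (x0 : ℝ), x0 ≤ 1 →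
    l.Pairwise (fun a b => a.1 ≤ b.1) → (∀ a ∈ l, x0 ≤ a.1 ∧ a.1 ≤ 1) →
    Net ({pt x0 y, pt 1 y} ∪ {z | ∃ a ∈ l, z = pt a.1 (y + a.2)})
      (1 - x0 + (l.map (fun a => cost B |a.2|)).sum + 2 * (c0 * B))
  | [], x0, hx, _, _ => by
      refine (Net.hor hx y).mono ?_ ?_
      · intro z hz; simpa using hz
      · simp only [List.map_nil, List.sum_nil]
        have := mul_nonneg c0_pos.le hB
        linarith
  | [a], x0, hx, _, h => by
      have ha := h a (by simp)
      have H := ((Net.hor ha.1 y).union (Net.hor ha.2 y) (pt a.1 y) (by simp) (by simp)).union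
        (Net.ver a.1 y a.2) (pt a.1 y) (by simp) (by simp)
      refine H.mono ?_ ?_
      · intro z hz
        simp only [List.mem_singleton, exists_eq_left, Set.mem_insert_iff, Set.mem_singleton_iff,
          Set.mem_union, Set.mem_ofPred_eq] at hz ⊢
        tauto
      · simp only [List.map_cons, List.map_nil, List.sum_cons, List.sum_nil]
        have := mul_nonneg c0_pos.le hB
        have := le_cost B |a.2|
        linarith
  | [a, b], x0, hx, hp, h => by
      have ha := h a (by simp)
      have hb := h b (by simp)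
      have hab : a.1 ≤ b.1 := by
        rw [List.pairwise_cons] at hp
        exact hp.1 b (by simp)
      have H := ((((Net.hor ha.1 y).union (Net.hor hab y) (pt a.1 y) (by simp) (by simp)).union
        (Net.hor hb.2 y) (pt b.1 y) (by simp) (by simp)).union
        (Net.ver a.1 y a.2) (pt a.1 y) (by simp) (by simp)).union
        (Net.ver b.1 y b.2) (pt b.1 y) (by simp) (by simp)
      refine H.mono ?_ ?_
      · intro z hz
        simp only [List.mem_cons, List.not_mem_nil, or_false, Set.mem_insert_iff,
          Set.mem_singleton_iff, Set.mem_union, Set.mem_ofPred_eq, exists_eq_or_imp,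
          exists_eq_left] at hz ⊢
        tauto
      · simp only [List.map_cons, List.map_nil, List.sum_cons, List.sum_nil]
        have := mul_nonneg c0_pos.le hB
        have := le_cost B |a.2|
        have := le_cost B |b.2|
        linarith
  | a :: b :: c :: l, x0, hx, hp, h => by
      have ha := h a (by simp)
      have hb := h b (by simp)
      have hc := h c (by simp)
      rw [List.pairwise_cons, List.pairwise_cons, List.pairwise_cons] at hp
      obtain ⟨pa, pb, pc, pl⟩ := hp
      have hab := pa b (by simp)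
      have hbc := pb c (by simp)
      have IH := lineNet B y hB l c.1 hc.2 pl
        (fun d hd => ⟨pc d hd, (h d (by simp [hd])).2⟩)
      have T := triple hab hbc y a.2 b.2 c.2 B
      have H := ((Net.hor ha.1 y).union T (pt a.1 y) (by simp) (by simp [TV])).union IH
        (pt c.1 y) (by simp [TV]) (by simp)
      refine H.mono ?_ ?_
      · intro z hz
        simp only [TV, List.mem_cons, Set.mem_insert_iff,
          Set.mem_singleton_iff, Set.mem_union, Set.mem_ofPred_eq, exists_eq_or_imp,
          exists_eq_left] at hz ⊢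
        tauto
      · simp only [List.map_cons, List.sum_cons, cost]
        linarith

/-- Finset version. -/
theorem lineNetF (B y : ℝ) (hB : 0 ≤ B) (S : Finset P2)
    (hS : ∀ p ∈ S, 0 ≤ p 0 ∧ p 0 ≤ 1) :
    Net ({pt 1 y} ∪ (S : Set P2))
      (1 + ∑ p ∈ S, cost B |p 1 - y| + 2 * (c0 * B)) := by
  classical
  set l0 : List (ℝ × ℝ) := S.toList.map (fun p => (p 0, p 1 - y)) with hl0
  set l := l0.insertionSort (fun a b : ℝ × ℝ => a.1 ≤ b.1) with hl
  have perm : l.Perm l0 := List.perm_insertionSort _ _
  have sorted : l.Pairwise (fun a b : ℝ × ℝ => a.1 ≤ b.1) := by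
    haveI : Std.Total (fun a b : ℝ × ℝ => a.1 ≤ b.1) := ⟨fun a b => le_total _ _⟩
    haveI : IsTrans (ℝ × ℝ) (fun a b : ℝ × ℝ => a.1 ≤ b.1) := ⟨fun a b c => le_trans⟩
    exact List.pairwise_insertionSort _ _
  have hmem : ∀ a, a ∈ l ↔ ∃ p ∈ S, (p 0, p 1 - y) = a := by
    intro a
    rw [perm.mem_iff, hl0, List.mem_map]
    simp only [Finset.mem_toList]
  have H := lineNet B y hB l 0 zero_le_one sorted (by
    intro a ha
    obtain ⟨p, hp, rfl⟩ := (hmem a).1 ha
    exact hS p hp)
  refine H.mono ?_ ?_
  · intro z hz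
    rcases hz with hz | hz
    · left; right; exact hz
    · right
      refine ⟨(z 0, z 1 - y), (hmem _).2 ⟨z, hz, rfl⟩, ?_⟩
      simp only [add_sub_cancel]
      exact (pt_eta z).symm
  · have : (l.map (fun a => cost B |a.2|)).sum = ∑ p ∈ S, cost B |p 1 - y| := by
      rw [(perm.map _).sum_eq, hl0, List.map_map]
      exact Finset.sum_map_toList S (fun p => cost B |p 1 - y|)
    rw [this]; linarith

/-- Parallel lines joined at the right end. -/
theorem strips (B : ℝ) (hB : 0 ≤ B) (y : ℕ → ℝ) (w : ℝ) (hw : ∀ j, |y j - y (j + 1)| = w)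
    (S : ℕ → Finset P2) (hS : ∀ j, ∀ p ∈ S j, 0 ≤ p 0 ∧ p 0 ≤ 1) (k : ℕ) :
    Net ({pt 1 (y k)} ∪ {z | ∃ j ≤ k, z ∈ S j})
      (k * w + (k + 1) * (1 + 2 * (c0 * B)) +
        ∑ j ∈ Finset.range (k + 1), ∑ p ∈ S j, cost B |p 1 - y j|) := by
  induction k with
  | zero =>
    refine (lineNetF B (y 0) hB (S 0) (hS 0)).mono ?_ ?_
    · intro z hz
      rcases hz with hz | ⟨j, hj, hz⟩
      · exact Or.inl hz
      · have : j = 0 := by omega
        subst this; exact Or.inr hz
    · simp only [zero_add, Finset.range_one, Finset.sum_singleton, Nat.cast_zero]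
      linarith
  | succ k ih =>
    have h1 := lineNetF B (y (k + 1)) hB (S (k + 1)) (hS (k + 1))
    have h2 := Net.seg (pt 1 (y k)) (pt 1 (y (k + 1)))
    rw [dist_pt_ver, hw] at h2
    have H := (ih.union h2 (pt 1 (y k)) (by simp) (by simp)).union h1 (pt 1 (y (k + 1)))
      (by simp) (by simp)
    refine H.mono ?_ ?_
    · intro z hz
      rcases hz with hz | ⟨j, hj, hz⟩
      · exact Or.inr (Or.inl hz)
      · rcases Nat.lt_or_ge j (k + 1) with hjk | hjk
        · exact Or.inl (Or.inl (Or.inr ⟨j, by omega, hz⟩))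
        · have : j = k + 1 := by omega
          subst this; exact Or.inr (Or.inr hz)
    · rw [Finset.sum_range_succ _ (k + 1)]
      push_cast
      linarith

end Pool.Agent.H270R2.Sq
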