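import Mathlib

set_option autoImplicit false

namespace Pool.Agent.H270R2.Sq

/-- The plane. -/
abbrev P2 := EuclideanSpace ℝ (Fin 2)

/-- Connection through the edges of `E`. -/
def Conn (E : Finset (P2 × P2)) (x y : P2) : Prop :=
  Relation.ReflTransGen (fun a b => (a, b) ∈ E ∨ (b, a) ∈ E) x y

/-- `V` can be connected by a network of total length at most `L`. -/
def Net (V : Set P2) (L : ℝ) : Prop :=
  ∃ E : Finset (P2 × P2), (∀ x ∈ V, ∀ y ∈ V, Conn E x y) ∧ ∑ e ∈ E, dist e.1 e.2 ≤ L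

theorem Conn.symm {E : Finset (P2 × P2)} {x y : P2} (h : Conn E x y) : Conn E y x := by
  unfold Conn at *
  induction h with
  | refl => exact Relation.ReflTransGen.refl
  | tail _ hbc ih =>
    exact Relation.ReflTransGen.head (by tauto) ih

theorem Conn.trans {E : Finset (P2 × P2)} {x y z : P2} (h : Conn E x y) (h' : Conn E y z) :
    Conn E x z := Relation.ReflTransGen.trans h h'

theorem Conn.mono {E E' : Finset (P2 × P2)} (hE : E ⊆ E') {x y : P2} (h : Conn E x y) :
    Conn E' x y := by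
  refine Relation.ReflTransGen.mono ?_ _ _ h
  intro a b hab
  rcases hab with hab | hab
  · exact Or.inl (hE hab)
  · exact Or.inr (hE hab)

theorem Net.mono {V W : Set P2} {L L' : ℝ} (h : Net V L) (hW : W ⊆ V) (hL : L ≤ L') :
    Net W L' := by
  obtain ⟨E, h1, h2⟩ := h
  exact ⟨E, fun x hx y hy => h1 x (hW hx) y (hW hy), h2.trans hL⟩

theorem Net.union {V W : Set P2} {L L' : ℝ} (h : Net V L) (h' : Net W L') (z : P2)
    (hz : z ∈ V) (hz' : z ∈ W) : Net (V ∪ W) (L + L') := by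
  classical
  obtain ⟨E, h1, h2⟩ := h
  obtain ⟨E', h1', h2'⟩ := h'
  refine ⟨E ∪ E', ?_, ?_⟩
  · have key : ∀ x ∈ V ∪ W, Conn (E ∪ E') x z := by
      intro x hx
      rcases hx with hx | hx
      · exact (h1 x hx z hz).mono Finset.subset_union_left
      · exact (h1' x hx z hz').mono Finset.subset_union_right
    intro x hx y hy
    exact (key x hx).trans (key y hy).symm
  · have h3 := Finset.sum_union_inter (s₁ := E) (s₂ := E') (f := fun e : P2 × P2 => dist e.1 e.2)
    have h4 : 0 ≤ ∑ e ∈ E ∩ E', dist e.1 e.2 := Finset.sum_nonneg (fun _ _ => dist_nonneg)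
    linarith

theorem Net.seg (p q : P2) : Net {p, q} (dist p q) := by
  classical
  refine ⟨{(p, q)}, ?_, by simp⟩
  have hpq : Conn {(p, q)} p q := Relation.ReflTransGen.single (Or.inl (by simp))
  intro x hx y hy
  rcases hx with rfl | hx
  · rcases hy with rfl | hy
    · exact Relation.ReflTransGen.refl
    · rw [Set.mem_singleton_iff] at hy
      subst hy; exact hpq
  · rw [Set.mem_singleton_iff] at hx
    subst hx
    rcases hy with rfl | hy
    · exact hpq.symm
    · rw [Set.mem_singleton_iff] at hy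
      subst hy; exact Relation.ReflTransGen.refl

/-- Points of the plane by coordinates. -/
noncomputable def pt (x y : ℝ) : P2 := !₂[x, y]

@[simp] theorem pt_zero (x y : ℝ) : pt x y 0 = x := rfl
@[simp] theorem pt_one (x y : ℝ) : pt x y 1 = y := rfl

theorem pt_eta (p : P2) : pt (p 0) (p 1) = p := by
  ext i
  fin_cases i <;> rfl

theorem dist_pt (a b c d : ℝ) : dist (pt a b) (pt c d) = √((a - c) ^ 2 + (b - d) ^ 2) := by
  rw [EuclideanSpace.dist_eq, Fin.sum_univ_two]
  simp only [pt_zero, pt_one, Real.dist_eq, sq_abs]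

theorem dist_pt_hor (a c b : ℝ) : dist (pt a b) (pt c b) = |a - c| := by
  rw [dist_pt, sub_self]
  simp [Real.sqrt_sq_eq_abs]

theorem dist_pt_ver (a b d : ℝ) : dist (pt a b) (pt a d) = |b - d| := by
  rw [dist_pt, sub_self]
  simp [Real.sqrt_sq_eq_abs]

/-- Horizontal segment. -/
theorem Net.hor {a c : ℝ} (h : a ≤ c) (b : ℝ) : Net {pt a b, pt c b} (c - a) := by
  have := Net.seg (pt a b) (pt c b)
  rwa [dist_pt_hor, abs_sub_comm, abs_of_nonneg (sub_nonneg.2 h)] at this

/-- Vertical segment from the foot. -/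
theorem Net.ver (a b η : ℝ) : Net {pt a (b + η), pt a b} |η| := by
  have := Net.seg (pt a (b + η)) (pt a b)
  rwa [dist_pt_ver, add_sub_cancel_left] at this

/-- The constant gained by a corner cut. -/
noncomputable def c0 : ℝ := 67 / 1000

theorem corner (x y η ν : ℝ) (h : |ν| ≤ |η|) :
    Net {pt x (y + η), pt x y, pt (x + ν) y} (|η| + |ν| - c0 * |ν|) := by
  -- choose `μ` with `|μ| = |ν|` of the sign of `η`
  obtain ⟨μ, hμ1, hμ2⟩ : ∃ μ : ℝ, μ ^ 2 = ν ^ 2 ∧ |η - μ| = |η| - |ν| := by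
    rcases le_total 0 η with hη | hη
    · refine ⟨|ν|, sq_abs ν, ?_⟩
      rw [abs_of_nonneg hη] at h ⊢
      rw [abs_of_nonneg (by linarith)]
    · refine ⟨-|ν|, by rw [neg_sq, sq_abs], ?_⟩
      rw [abs_of_nonpos hη] at h ⊢
      rw [abs_of_nonpos (by linarith)]
      ring
  have h1 := Net.seg (pt x (y + η)) (pt x (y + μ))
  have h2 := Net.seg (pt x (y + μ)) (pt (x + ν / 5) (y + μ / 5))
  have h3 := Net.seg (pt (x + ν / 5) (y + μ / 5)) (pt x y)
  have h4 := Net.seg (pt (x + ν / 5) (y + μ / 5)) (pt (x + ν) y)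
  have H := ((h1.union h2 (pt x (y + μ)) (by simp) (by simp)).union h3
    (pt (x + ν / 5) (y + μ / 5)) (by simp) (by simp)).union h4
    (pt (x + ν / 5) (y + μ / 5)) (by simp) (by simp)
  refine H.mono ?_ ?_
  · intro z hz
    simp only [Set.mem_insert_iff, Set.mem_singleton_iff, Set.mem_union] at hz ⊢
    tauto
  · have e1 : dist (pt x (y + η)) (pt x (y + μ)) = |η| - |ν| := by
      rw [dist_pt_ver, ← hμ2]; congr 1; ring
    have e2 : dist (pt x (y + μ)) (pt (x + ν / 5) (y + μ / 5)) = |ν| * (√17 / 5) := by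
      rw [dist_pt]
      have : (x - (x + ν / 5)) ^ 2 + (y + μ - (y + μ / 5)) ^ 2 = ν ^ 2 * (17 / 5 ^ 2) := by
        have : (x - (x + ν / 5)) ^ 2 + (y + μ - (y + μ / 5)) ^ 2
          = ν ^ 2 / 25 + 16 / 25 * μ ^ 2 := by ring
        rw [this, hμ1]; ring
      rw [this, Real.sqrt_mul (sq_nonneg _), Real.sqrt_sq_eq_abs, Real.sqrt_div (by norm_num),
        Real.sqrt_sq (by norm_num)]
    have e3 : dist (pt (x + ν / 5) (y + μ / 5)) (pt x y) = |ν| * (√2 / 5) := by
      rw [dist_pt]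
      have : (x + ν / 5 - x) ^ 2 + (y + μ / 5 - y) ^ 2 = ν ^ 2 * (2 / 5 ^ 2) := by
        have : (x + ν / 5 - x) ^ 2 + (y + μ / 5 - y) ^ 2
          = ν ^ 2 / 25 + 1 / 25 * μ ^ 2 := by ring
        rw [this, hμ1]; ring
      rw [this, Real.sqrt_mul (sq_nonneg _), Real.sqrt_sq_eq_abs, Real.sqrt_div (by norm_num),
        Real.sqrt_sq (by norm_num)]
    have e4 : dist (pt (x + ν / 5) (y + μ / 5)) (pt (x + ν) y) = |ν| * (√17 / 5) := by
      rw [dist_pt]
      have : (x + ν / 5 - (x + ν)) ^ 2 + (y + μ / 5 - y) ^ 2 = ν ^ 2 * (17 / 5 ^ 2) := by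
        have : (x + ν / 5 - (x + ν)) ^ 2 + (y + μ / 5 - y) ^ 2
          = 16 / 25 * ν ^ 2 + 1 / 25 * μ ^ 2 := by ring
        rw [this, hμ1]; ring
      rw [this, Real.sqrt_mul (sq_nonneg _), Real.sqrt_sq_eq_abs, Real.sqrt_div (by norm_num),
        Real.sqrt_sq (by norm_num)]
    rw [e1, e2, e3, e4]
    have s17 : √17 ≤ 4.1232 := by
      rw [Real.sqrt_le_left (by norm_num)]; norm_num
    have s2 : √2 ≤ 1.4143 := by
      rw [Real.sqrt_le_left (by norm_num)]; norm_num
    have hν : 0 ≤ |ν| := abs_nonneg _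
    unfold c0
    nlinarith [mul_le_mul_of_nonneg_left s17 hν, mul_le_mul_of_nonneg_left s2 hν]

end Pool.Agent.H270R2.Sq
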