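import Pool.Agent.H270R2.Sq.Net

set_option autoImplicit false

namespace Pool.Agent.H270R2.Sq

/-- The set connected for a triple. -/
def TV (x1 x2 x3 y η1 η2 η3 : ℝ) : Set P2 :=
  {pt x1 (y + η1), pt x2 (y + η2), pt x3 (y + η3), pt x1 y, pt x3 y}

theorem kR (x1 x2 x3 y η1 η2 η3 : ℝ)
    {m1 m2 m3 : ℝ} (p1 : 0 ≤ m1) (p2 : 0 ≤ m2) (p3 : 0 ≤ m3)
    (q1 : m1 ≤ |η1|) (q2 : m2 ≤ |η2|) (q3 : m3 ≤ |η3|)
    (r1 : m1 ≤ x2 - x1) (r2 : m2 + m3 ≤ x3 - x2) :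
    Net (TV x1 x2 x3 y η1 η2 η3) (x3 - x1 + (|η1| + |η2| + |η3|) - c0 * (m1 + m2 + m3)) := by
  have a1 : |m1| = m1 := abs_of_nonneg p1
  have a2 : |m2| = m2 := abs_of_nonneg p2
  have a3 : |-m3| = m3 := by rw [abs_neg, abs_of_nonneg p3]
  have k1 := corner x1 y η1 m1 (by rw [a1]; exact q1)
  have k2 := corner x2 y η2 m2 (by rw [a2]; exact q2)
  have k3 := corner x3 y η3 (-m3) (by rw [a3]; exact q3)
  rw [a1] at k1
  rw [a2] at k2
  rw [a3] at k3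
  have s1 := Net.hor (a := x1 + m1) (c := x2) (by linarith) y
  have s2 := Net.hor (a := x2 + m2) (c := x3 + -m3) (by linarith) y
  have H := (((k1.union s1 (pt (x1 + m1) y) (by simp) (by simp)).union k2 (pt x2 y)
    (by simp) (by simp)).union s2 (pt (x2 + m2) y) (by simp) (by simp)).union k3
    (pt (x3 + -m3) y) (by simp) (by simp)
  refine H.mono ?_ (le_of_eq (by ring))
  intro z hz
  simp only [TV, Set.mem_insert_iff, Set.mem_singleton_iff, Set.mem_union] at hz ⊢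
  tauto

theorem kL (x1 x2 x3 y η1 η2 η3 : ℝ)
    {m1 m2 m3 : ℝ} (p1 : 0 ≤ m1) (p2 : 0 ≤ m2) (p3 : 0 ≤ m3)
    (q1 : m1 ≤ |η1|) (q2 : m2 ≤ |η2|) (q3 : m3 ≤ |η3|)
    (r1 : m1 + m2 ≤ x2 - x1) (r2 : m3 ≤ x3 - x2) :
    Net (TV x1 x2 x3 y η1 η2 η3) (x3 - x1 + (|η1| + |η2| + |η3|) - c0 * (m1 + m2 + m3)) := by
  have a1 : |m1| = m1 := abs_of_nonneg p1
  have a2 : |-m2| = m2 := by rw [abs_neg, abs_of_nonneg p2]
  have a3 : |-m3| = m3 := by rw [abs_neg, abs_of_nonneg p3]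
  have k1 := corner x1 y η1 m1 (by rw [a1]; exact q1)
  have k2 := corner x2 y η2 (-m2) (by rw [a2]; exact q2)
  have k3 := corner x3 y η3 (-m3) (by rw [a3]; exact q3)
  rw [a1] at k1
  rw [a2] at k2
  rw [a3] at k3
  have s1 := Net.hor (a := x1 + m1) (c := x2 + -m2) (by linarith) y
  have s2 := Net.hor (a := x2) (c := x3 + -m3) (by linarith) y
  have H := (((k1.union s1 (pt (x1 + m1) y) (by simp) (by simp)).union k2 (pt (x2 + -m2) y)
    (by simp) (by simp)).union s2 (pt x2 y) (by simp) (by simp)).union k3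
    (pt (x3 + -m3) y) (by simp) (by simp)
  refine H.mono ?_ (le_of_eq (by ring))
  intro z hz
  simp only [TV, Set.mem_insert_iff, Set.mem_singleton_iff, Set.mem_union] at hz ⊢
  tauto

theorem kNet {x1 x2 x3 : ℝ} (h12 : x1 ≤ x2) (h23 : x2 ≤ x3) (y η1 η2 η3 : ℝ) {T : ℝ}
    (hD : T ≤ x3 - x1) (t12 : T ≤ |η1| + |η2|) (t23 : T ≤ |η2| + |η3|)
    (t13 : T ≤ |η1| + |η3|) :
    Net (TV x1 x2 x3 y η1 η2 η3) (x3 - x1 + (|η1| + |η2| + |η3|) - c0 * T) := by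
  have n1 := abs_nonneg η1
  have n2 := abs_nonneg η2
  have n3 := abs_nonneg η3
  have hc : 0 < c0 := by unfold c0; norm_num
  by_cases c1 : x2 - x1 ≤ |η1|
  · -- use the right cut
    have hm2 : 0 ≤ min |η2| (x3 - x2) := le_min n2 (by linarith)
    have hm3 : 0 ≤ min |η3| (x3 - x2 - min |η2| (x3 - x2)) :=
      le_min n3 (by linarith [min_le_right |η2| (x3 - x2)])
    have H := kR x1 x2 x3 y η1 η2 η3 (m1 := x2 - x1) (m2 := min |η2| (x3 - x2))
      (m3 := min |η3| (x3 - x2 - min |η2| (x3 - x2))) (by linarith) hm2 hm3 c1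
      (min_le_left _ _) (min_le_left _ _) le_rfl
      (by linarith [min_le_right |η3| (x3 - x2 - min |η2| (x3 - x2))])
    refine H.mono subset_rfl ?_
    have : T ≤ x2 - x1 + min |η2| (x3 - x2) + min |η3| (x3 - x2 - min |η2| (x3 - x2)) := by
      rcases min_cases |η2| (x3 - x2) with ⟨e, _⟩ | ⟨e, _⟩ <;> rw [e]
      · rcases min_cases |η3| (x3 - x2 - |η2|) with ⟨e', _⟩ | ⟨e', _⟩ <;> rw [e'] <;> linarith
      · rw [sub_self, min_eq_right n3]; linarith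
    nlinarith
  · push Not at c1
    by_cases c3 : x3 - x2 ≤ |η3|
    · have hm2 : 0 ≤ min |η2| (x2 - x1) := le_min n2 (by linarith)
      have hm1 : 0 ≤ min |η1| (x2 - x1 - min |η2| (x2 - x1)) :=
        le_min n1 (by linarith [min_le_right |η2| (x2 - x1)])
      have H := kL x1 x2 x3 y η1 η2 η3 (m3 := x3 - x2) (m2 := min |η2| (x2 - x1))
        (m1 := min |η1| (x2 - x1 - min |η2| (x2 - x1))) hm1 hm2 (by linarith)
        (min_le_left _ _) (min_le_left _ _) c3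
        (by linarith [min_le_right |η1| (x2 - x1 - min |η2| (x2 - x1))]) le_rfl
      refine H.mono subset_rfl ?_
      have : T ≤ min |η1| (x2 - x1 - min |η2| (x2 - x1)) + min |η2| (x2 - x1) + (x3 - x2) := by
        rcases min_cases |η2| (x2 - x1) with ⟨e, _⟩ | ⟨e, _⟩ <;> rw [e]
        · rcases min_cases |η1| (x2 - x1 - |η2|) with ⟨e', _⟩ | ⟨e', _⟩ <;> rw [e'] <;> linarith
        · rw [sub_self, min_eq_right n1]; linarith
      nlinarith
    · push Not at c3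
      have H := kR x1 x2 x3 y η1 η2 η3 (m1 := |η1|) (m2 := 0) (m3 := |η3|) n1 le_rfl n3 le_rfl n2
        le_rfl c1.le (by linarith)
      refine H.mono subset_rfl ?_
      nlinarith

/-- The gain function (homogeneous form). -/
noncomputable def g (B h : ℝ) : ℝ := min (min (245 / 100 * h - 2 * B) (45 / 100 * h - B / 2)) B

theorem g_le1 (B h : ℝ) : g B h ≤ 245 / 100 * h - 2 * B :=
  (min_le_left _ _).trans (min_le_left _ _)
theorem g_le2 (B h : ℝ) : g B h ≤ 45 / 100 * h - B / 2 :=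
  (min_le_left _ _).trans (min_le_right _ _)
theorem g_le3 (B h : ℝ) : g B h ≤ B := min_le_right _ _

/-- The real inequality behind the direct-edge move. -/
theorem ineqM {D S u v : ℝ} (hD : 0 ≤ D) (hDS : D < S) (hv : 0 ≤ v) (hvu : v ≤ u)
    (s1 : S ≤ 245 / 100 * v) (s2 : S ≤ 45 / 100 * (u + v)) :
    √(D ^ 2 + (u - v) ^ 2) ≤ u - c0 * S := by
  have hS : 0 < S := lt_of_le_of_lt hD hDS
  have hpos : 0 ≤ u - c0 * S := by unfold c0; linarith
  rw [Real.sqrt_le_left hpos]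
  have h1 : D ^ 2 ≤ S ^ 2 := by nlinarith
  unfold c0 at *
  by_cases hc : u ≤ 44 / 10 * v
  · have h2 : S ^ 2 ≤ (45 / 100 * (u + v)) ^ 2 := by nlinarith
    nlinarith [mul_nonneg hv (sub_nonneg.2 hvu), mul_nonneg (sub_nonneg.2 hc) (sub_nonneg.2 hvu),
      mul_le_mul_of_nonneg_left s2 (show 0 ≤ u by linarith)]
  · push Not at hc
    have h2 : S ^ 2 ≤ (245 / 100 * v) ^ 2 := by nlinarith
    nlinarith [mul_nonneg hv (sub_nonneg.2 hc.le), mul_nonneg hv hv,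
      mul_le_mul_of_nonneg_left s1 (show 0 ≤ u by linarith)]

theorem mNet {V : Set P2} {L : ℝ} (hV : Net V L) (y xa ηa xb ηb xc ηc : ℝ)
    (hb : pt xb y ∈ V) (hc : pt xc y ∈ V) :
    Net (V ∪ {pt xa (y + ηa), pt xb (y + ηb), pt xc (y + ηc)})
      (L + |ηb| + |ηc| + dist (pt xa (y + ηa)) (pt xb (y + ηb))) := by
  have H := ((hV.union (Net.ver xb y ηb) _ hb (by simp)).union (Net.ver xc y ηc) (pt xc y)
    (Or.inl hc) (by simp)).union (Net.seg (pt xa (y + ηa)) (pt xb (y + ηb)))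
    (pt xb (y + ηb)) (by simp) (by simp)
  refine H.mono ?_ le_rfl
  intro z hz
  simp only [Set.mem_insert_iff, Set.mem_singleton_iff, Set.mem_union] at hz ⊢
  tauto

theorem distM {D S xa ηa xb ηb : ℝ} (y : ℝ) (hs : 0 ≤ ηa * ηb) (hab : |ηb| ≤ |ηa|)
    (hx : |xa - xb| ≤ D) (hDS : D < S) (s1 : S ≤ 245 / 100 * |ηb|)
    (s2 : S ≤ 45 / 100 * (|ηa| + |ηb|)) :
    dist (pt xa (y + ηa)) (pt xb (y + ηb)) ≤ |ηa| - c0 * S := by
  have hD : 0 ≤ D := (abs_nonneg _).trans hx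
  refine le_trans ?_ (ineqM hD hDS (abs_nonneg ηb) hab s1 s2)
  rw [dist_pt]
  apply Real.sqrt_le_sqrt
  have h1 : (xa - xb) ^ 2 ≤ D ^ 2 := by
    rw [← sq_abs (xa - xb)]
    exact pow_le_pow_left₀ (abs_nonneg _) hx 2
  have h2 : |ηa| * |ηb| = ηa * ηb := by rw [← abs_mul, abs_of_nonneg hs]
  have h3 : (y + ηa - (y + ηb)) ^ 2 = (|ηa| - |ηb|) ^ 2 := by
    have : (|ηa| - |ηb|) ^ 2 = |ηa| ^ 2 - 2 * (|ηa| * |ηb|) + |ηb| ^ 2 := by ring
    rw [this, h2, sq_abs, sq_abs]; ring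
  linarith

theorem triple {x1 x2 x3 : ℝ} (h12 : x1 ≤ x2) (h23 : x2 ≤ x3) (y η1 η2 η3 : ℝ) (B : ℝ) :
    Net (TV x1 x2 x3 y η1 η2 η3)
      (x3 - x1 + (|η1| + |η2| + |η3|) - c0 * (g B |η1| + g B |η2| + g B |η3|)) := by
  set S := g B |η1| + g B |η2| + g B |η3| with hS
  have n1 := abs_nonneg η1
  have n2 := abs_nonneg η2
  have n3 := abs_nonneg η3
  have a1 := g_le1 B |η1|
  have a2 := g_le2 B |η1|
  have a3 := g_le3 B |η1|
  have b1 := g_le1 B |η2|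
  have b2 := g_le2 B |η2|
  have b3 := g_le3 B |η2|
  have d1 := g_le1 B |η3|
  have d2 := g_le2 B |η3|
  have d3 := g_le3 B |η3|
  by_cases hD : S ≤ x3 - x1
  · exact kNet h12 h23 y η1 η2 η3 hD (by linarith) (by linarith) (by linarith)
  push Not at hD
  have trunk := (Net.hor h12 y).union (Net.hor h23 y) (pt x2 y) (by simp) (by simp)
  -- a common finishing step
  have fin : ∀ (xa ηa xb ηb xc ηc : ℝ), x1 ≤ xa ∧ xa ≤ x3 → x1 ≤ xb ∧ xb ≤ x3 →
      pt xb y ∈ ({pt x1 y, pt x2 y} ∪ {pt x2 y, pt x3 y} : Set P2) →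
      pt xc y ∈ ({pt x1 y, pt x2 y} ∪ {pt x2 y, pt x3 y} : Set P2) →
      0 ≤ ηa * ηb → |ηb| ≤ |ηa| → S ≤ 245 / 100 * |ηb| → S ≤ 45 / 100 * (|ηa| + |ηb|) →
      |ηa| + |ηb| + |ηc| = |η1| + |η2| + |η3| →
      TV x1 x2 x3 y η1 η2 η3 ⊆ ({pt x1 y, pt x2 y} ∪ {pt x2 y, pt x3 y} : Set P2) ∪
        {pt xa (y + ηa), pt xb (y + ηb), pt xc (y + ηc)} →
      Net (TV x1 x2 x3 y η1 η2 η3) (x3 - x1 + (|η1| + |η2| + |η3|) - c0 * S) := by
    intro xa ηa xb ηb xc ηc ha hb hbV hcV hs hab s1 s2 hsum hT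
    refine (mNet trunk y xa ηa xb ηb xc ηc hbV hcV).mono hT ?_
    have hx : |xa - xb| ≤ x3 - x1 := by rw [abs_le]; constructor <;> linarith
    have := distM (xa := xa) (xb := xb) y hs hab hx hD s1 s2
    linarith
  -- either order inside a pair
  have fin2 : ∀ (xa ηa xb ηb xc ηc : ℝ), x1 ≤ xa ∧ xa ≤ x3 → x1 ≤ xb ∧ xb ≤ x3 →
      pt xa y ∈ ({pt x1 y, pt x2 y} ∪ {pt x2 y, pt x3 y} : Set P2) →
      pt xb y ∈ ({pt x1 y, pt x2 y} ∪ {pt x2 y, pt x3 y} : Set P2) →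
      pt xc y ∈ ({pt x1 y, pt x2 y} ∪ {pt x2 y, pt x3 y} : Set P2) →
      0 ≤ ηa * ηb → S ≤ 245 / 100 * |ηa| → S ≤ 245 / 100 * |ηb| →
      S ≤ 45 / 100 * (|ηa| + |ηb|) →
      |ηa| + |ηb| + |ηc| = |η1| + |η2| + |η3| →
      TV x1 x2 x3 y η1 η2 η3 ⊆ ({pt x1 y, pt x2 y} ∪ {pt x2 y, pt x3 y} : Set P2) ∪
        {pt xa (y + ηa), pt xb (y + ηb), pt xc (y + ηc)} →
      Net (TV x1 x2 x3 y η1 η2 η3) (x3 - x1 + (|η1| + |η2| + |η3|) - c0 * S) := by
    intro xa ηa xb ηb xc ηc ha hb haV hbV hcV hs s1 s1' s2 hsum hT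
    rcases le_total |ηb| |ηa| with hab | hab
    · exact fin xa ηa xb ηb xc ηc ha hb hbV hcV hs hab s1' s2 hsum hT
    · refine fin xb ηb xa ηa xc ηc hb ha haV hcV (by rwa [mul_comm]) hab s1 (by linarith)
        (by linarith) (hT.trans ?_)
      intro z hz
      simp only [Set.mem_insert_iff, Set.mem_singleton_iff, Set.mem_union] at hz ⊢
      tauto
  -- pigeonhole on the sides
  have pig : 0 ≤ η1 * η2 ∨ 0 ≤ η2 * η3 ∨ 0 ≤ η1 * η3 := by
    rcases le_total 0 η1 with p1 | p1 <;> rcases le_total 0 η2 with p2 | p2 <;>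
      rcases le_total 0 η3 with p3 | p3
    · exact Or.inl (mul_nonneg p1 p2)
    · exact Or.inl (mul_nonneg p1 p2)
    · exact Or.inr (Or.inr (mul_nonneg p1 p3))
    · exact Or.inr (Or.inl (mul_nonneg_of_nonpos_of_nonpos p2 p3))
    · exact Or.inr (Or.inl (mul_nonneg p2 p3))
    · exact Or.inr (Or.inr (mul_nonneg_of_nonpos_of_nonpos p1 p3))
    · exact Or.inl (mul_nonneg_of_nonpos_of_nonpos p1 p2)
    · exact Or.inl (mul_nonneg_of_nonpos_of_nonpos p1 p2)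
  rcases pig with h | h | h
  · refine fin2 x1 η1 x2 η2 x3 η3 ⟨le_rfl, by linarith⟩ ⟨by linarith, by linarith⟩ (by simp)
      (by simp) (by simp) h (by linarith) (by linarith) (by linarith) (by ring) ?_
    intro z hz
    simp only [TV, Set.mem_insert_iff, Set.mem_singleton_iff, Set.mem_union] at hz ⊢
    tauto
  · refine fin2 x2 η2 x3 η3 x1 η1 ⟨by linarith, by linarith⟩ ⟨by linarith, le_rfl⟩ (by simp)
      (by simp) (by simp) h (by linarith) (by linarith) (by linarith) (by ring) ?_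
    intro z hz
    simp only [TV, Set.mem_insert_iff, Set.mem_singleton_iff, Set.mem_union] at hz ⊢
    tauto
  · refine fin2 x1 η1 x3 η3 x2 η2 ⟨le_rfl, by linarith⟩ ⟨by linarith, le_rfl⟩ (by simp)
      (by simp) (by simp) h (by linarith) (by linarith) (by linarith) (by ring) ?_
    intro z hz
    simp only [TV, Set.mem_insert_iff, Set.mem_singleton_iff, Set.mem_union] at hz ⊢
    tauto

end Pool.Agent.H270R2.Sq
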